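import Pool.Agent.helper54.GR3.Spec

/-! g3: NBR: the choice of the cell and of its nearest neighbour. -/

set_option autoImplicit false

open Complex Metric Set Filter Topology MeasureTheory
open MPS (om)
open PPS (pre TT fd)
open XPS (Df er dens tau)
open Pool.Agent.helper16.Multibrot

noncomputable section

namespace GR

theorem NBR_term (m s d : ℝ) (hm : 0 < m) (hs : 0 < s) (h : m ≤ s * d ^ 2) (D : ℝ) (hD : 0 < D) :
    1 / (s * D) ≤ 4 / m * ((d / 2) ^ 2 / D) := by
  have e : 4 / m * ((d / 2) ^ 2 / D) = d ^ 2 / (m * D) := by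
    field_simp
    ring
  rw [e, div_le_div_iff₀ (by positivity) (by positivity)]
  have : m * D ≤ s * d ^ 2 * D := mul_le_mul_of_nonneg_right h hD.le
  linarith

theorem NBR (h3 : WS3_stmt) (h4 : WS4_stmt) : NBR_stmt := by
  intro ι _ s z σ hc hσ hsep
  have hne : ∀ j ∈ s, (s.erase j).Nonempty := by
    intro j hj
    rw [← Finset.card_pos, Finset.card_erase_of_mem hj]
    omega
  have hnn : ∀ j : ι, ∃ k : ι, j ∈ s →
      (k ∈ s ∧ k ≠ j ∧ ∀ l ∈ s, l ≠ j → ‖z k - z j‖ ≤ ‖z l - z j‖) := by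
    intro j
    by_cases hj : j ∈ s
    · obtain ⟨k, hk, hmin⟩ := Finset.exists_min_image (s.erase j) (fun l => ‖z l - z j‖) (hne j hj)
      exact ⟨k, fun _ => ⟨Finset.mem_of_mem_erase hk, Finset.ne_of_mem_erase hk,
        fun l hl hlj => hmin l (Finset.mem_erase.2 ⟨hlj, hl⟩)⟩⟩
    · exact ⟨j, fun h => absurd h hj⟩
  choose nb hnb using hnn
  obtain ⟨d, hd⟩ : ∃ d : ι → ℝ, ∀ j, d j = ‖z (nb j) - z j‖ := ⟨_, fun _ => rfl⟩
  have hpos : ∀ j ∈ s, ∀ l ∈ s, l ≠ j → 0 < ‖z l - z j‖ := by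
    intro j hj l hl hlj
    have := hsep l hl j hj hlj
    have h1 := hσ l hl
    have h2 := hσ j hj
    linarith
  have hdpos : ∀ j ∈ s, 0 < d j := by
    intro j hj
    rw [hd]
    exact hpos j hj (nb j) (hnb j hj).1 (hnb j hj).2.1
  have hdle : ∀ j ∈ s, ∀ l ∈ s, l ≠ j → d j ≤ ‖z l - z j‖ := by
    intro j hj l hl hlj
    rw [hd]
    exact (hnb j hj).2.2 l hl hlj
  have hsne : s.Nonempty := by
    rw [← Finset.card_pos]
    omega
  obtain ⟨i, hi, himin⟩ := Finset.exists_min_image s (fun j => σ j * d j ^ 2) hsne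
  have hk := (hnb i hi).1
  have hki := (hnb i hi).2.1
  have hkd : ‖z (nb i) - z i‖ = d i := (hd i).symm
  have hm : 0 < σ i * d i ^ 2 := mul_pos (hσ i hi) (pow_pos (hdpos i hi) 2)
  have hr : ∀ j ∈ s, 0 < d j / 2 := fun j hj => by
    have := hdpos j hj
    linarith
  have hdisj : ∀ j ∈ s, ∀ l ∈ s, j ≠ l → d j / 2 + d l / 2 ≤ ‖z j - z l‖ := by
    intro j hj l hl hjl
    have h1 := hdle j hj l hl hjl.symm
    have h2 := hdle l hl j hj hjl
    rw [norm_sub_rev] at h1
    linarith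
  have hi0 := hdpos i hi
  have hs0 := hσ i hi
  refine ⟨i, hi, nb i, hk, hki.symm, ?_, (hnb i hi).2.2, ?_, ?_⟩
  · -- the modulus
    have h1 := himin (nb i) hk
    have h2 : d (nb i) ≤ d i := by
      have := hdle (nb i) hk i hi hki.symm
      rw [norm_sub_rev, hkd] at this
      exact this
    have h3' : d (nb i) ^ 2 ≤ d i ^ 2 := pow_le_pow_left₀ (hdpos _ hk).le h2 2
    have h4' : σ (nb i) * d (nb i) ^ 2 ≤ σ (nb i) * d i ^ 2 :=
      mul_le_mul_of_nonneg_left h3' (hσ _ hk).le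
    exact le_of_mul_le_mul_right (h1.trans h4') (pow_pos hi0 2)
  · -- the first sum
    rw [hkd]
    have key := h3 ι (s.erase i) z (fun j => d j / 2) (z i) (d i) hi0
      (fun j hj => hr j (Finset.mem_of_mem_erase hj))
      (fun j hj l hl hjl => hdisj j (Finset.mem_of_mem_erase hj) l (Finset.mem_of_mem_erase hl) hjl)
      (fun j hj => by
        have := hdle j (Finset.mem_of_mem_erase hj) i hi (Finset.ne_of_mem_erase hj).symm
        rw [norm_sub_rev] at this
        linarith)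
      (fun j hj => hdle i hi j (Finset.mem_of_mem_erase hj) (Finset.ne_of_mem_erase hj))
    calc ∑ l ∈ s.erase i, 1 / (σ l * ‖z l - z i‖ ^ 3)
        ≤ ∑ l ∈ s.erase i, 4 / (σ i * d i ^ 2) * ((d l / 2) ^ 2 / ‖z l - z i‖ ^ 3) := by
          refine Finset.sum_le_sum fun l hl => ?_
          have hl' := Finset.mem_of_mem_erase hl
          exact NBR_term _ _ _ hm (hσ l hl') (himin l hl') _
            (pow_pos (hpos i hi l hl' (Finset.ne_of_mem_erase hl)) 3)
      _ = 4 / (σ i * d i ^ 2) * ∑ l ∈ s.erase i, (d l / 2) ^ 2 / ‖z l - z i‖ ^ 3 := by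
          rw [Finset.mul_sum]
      _ ≤ 4 / (σ i * d i ^ 2) * (18 / d i) := mul_le_mul_of_nonneg_left key (by positivity)
      _ = 72 / (σ i * d i ^ 3) := by
          field_simp
          norm_num
  · -- the second sum
    rw [hkd]
    have hmem : ∀ j ∈ (s.erase i).erase (nb i), j ∈ s ∧ j ≠ i ∧ j ≠ nb i := by
      intro j hj
      rw [Finset.mem_erase, Finset.mem_erase] at hj
      exact ⟨hj.2.2, hj.2.1, hj.1⟩
    have key := h4 ι ((s.erase i).erase (nb i)) z (fun j => d j / 2) (z i) (z (nb i)) (d i) hi0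
      (fun j hj => hr j (hmem j hj).1)
      (fun j hj l hl hjl => hdisj j (hmem j hj).1 l (hmem l hl).1 hjl)
      (fun j hj => by
        have := hdle j (hmem j hj).1 i hi (hmem j hj).2.1.symm
        rw [norm_sub_rev] at this
        linarith)
      (fun j hj => by
        have := hdle j (hmem j hj).1 (nb i) hk (hmem j hj).2.2.symm
        rw [norm_sub_rev] at this
        linarith)
      (fun j hj => hdle i hi j (hmem j hj).1 (hmem j hj).2.1)
    calc ∑ l ∈ (s.erase i).erase (nb i), 1 / (σ l * (‖z l - z i‖ ^ 2 * ‖z l - z (nb i)‖))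
        ≤ ∑ l ∈ (s.erase i).erase (nb i),
            4 / (σ i * d i ^ 2) * ((d l / 2) ^ 2 / (‖z l - z i‖ ^ 2 * ‖z l - z (nb i)‖)) := by
          refine Finset.sum_le_sum fun l hl => ?_
          obtain ⟨hl1, hl2, hl3⟩ := hmem l hl
          exact NBR_term _ _ _ hm (hσ l hl1) (himin l hl1) _
            (mul_pos (pow_pos (hpos i hi l hl1 hl2) 2) (hpos (nb i) hk l hl1 hl3))
      _ = 4 / (σ i * d i ^ 2) * ∑ l ∈ (s.erase i).erase (nb i),
            (d l / 2) ^ 2 / (‖z l - z i‖ ^ 2 * ‖z l - z (nb i)‖) := by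
          rw [Finset.mul_sum]
      _ ≤ 4 / (σ i * d i ^ 2) * (45 / d i) := mul_le_mul_of_nonneg_left key (by positivity)
      _ = 180 / (σ i * d i ^ 3) := by
          field_simp
          norm_num

end GR
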